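import Pool.Agent.H3.RCR.Stmts2
import Pool.Agent.H3.RCR.Util

/-! # RCR, module P0: basic facts about annuli -/

namespace Pool.Agent.H3.RCR.P0

open Relation

/-- the reversed cycle is a cycle -/
theorem cyc_neg {F : Finset Tri} (hF : Pre F) {m : ℕ} {c : ZMod m → ℕ} (hc : Cyc F c) :
    Cyc F (fun i => c (-i)) where
  three := hc.three
  inj := fun i j h => neg_injective (hc.inj h)
  adj := fun i => by
    have h := hc.adj (-(i + 1))
    have e : -(i + 1) + 1 = -i := by ring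
    rw [e] at h
    exact hF.adj_symm h

theorem dl_cast {b : ℕ} {θ : ℕ → ZMod b} {x y : ℕ}
    (h : θ y = θ x ∨ θ y = θ x + 1 ∨ θ x = θ y + 1) :
    ((dl θ x y : ℤ) : ZMod b) = θ y - θ x := by
  unfold dl
  by_cases h1 : θ y = θ x + 1
  · rw [if_pos h1, h1]; push_cast; ring
  · rw [if_neg h1]
    by_cases h2 : θ x = θ y + 1
    · rw [if_pos h2, h2]; push_cast; ring
    · rw [if_neg h2]
      rcases h with h | h | h
      · rw [h]; push_cast; ring
      · exact absurd h h1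
      · exact absurd h h2

theorem two_ne {b : ℕ} (hb : 3 ≤ b) (a : ZMod b) : a + 1 + 1 ≠ a := by
  intro h
  have h2 : ((2 : ℕ) : ZMod b) = 0 := by
    have : a + (1 + 1) = a + 0 := by rw [← add_assoc, h, add_zero]
    have := add_left_cancel this
    push_cast
    rw [← this]; norm_num
  rw [ZMod.natCast_eq_zero_iff] at h2
  exact absurd (Nat.le_of_dvd (by norm_num) h2) (by omega)

theorem dl_anti {b : ℕ} (hb : 3 ≤ b) (θ : ℕ → ZMod b) (x y : ℕ) :
    dl θ x y = - dl θ y x := by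
  unfold dl
  by_cases h1 : θ y = θ x + 1
  · have h2 : θ x ≠ θ y + 1 := by
      intro h2
      rw [h1] at h2
      exact two_ne hb _ h2.symm
    rw [if_pos h1, if_neg h2, if_pos h1]
    rfl
  · by_cases h2 : θ x = θ y + 1
    · rw [if_neg h1, if_pos h2, if_pos h2]
    · rw [if_neg h1, if_neg h2, if_neg h2, if_neg h1]; rfl

theorem dl_abs {b : ℕ} (θ : ℕ → ZMod b) (x y : ℕ) : |dl θ x y| ≤ 1 := by
  unfold dl
  split_ifs <;> simp

end P0

open P0

theorem p0 (h7 : A7Stmt) : P0Stmt := by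
  intro F D K b N C θ d hF hN hA
  have hP : Pre F := hF.toPre
  have hc' : Cyc F (fun i => C (-i)) := cyc_neg hP hA.cyc
  obtain ⟨-, hD2, hD3⟩ := h7 F hF b _ D hc' hA.sideD
  obtain ⟨z, Z, hZc, hZs, hZd⟩ := hA.sideK
  have hZc' : Cyc F (fun i => Z (-i)) := cyc_neg hP hZc
  obtain ⟨-, hK2, hK3⟩ := h7 F hF z _ K hZc' hZs
  have hKF : K ⊆ F := hZs.sub
  have hDK : D ⊆ K := hA.sub
  have hb3 : 3 ≤ b := hA.cyc.three
  -- a vertex of `D` with a face outside `D` is on `C`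
  have onC : ∀ x ∈ verts D, ∀ p q, (x, p, q) ∈ F → (x, p, q) ∉ D → ∃ i, x = C i := by
    intro x hx p q hpq hn
    by_contra hne
    push Not at hne
    exact hn (hD2 x hx (fun i => hne (-i)) p q hpq)
  have onZ : ∀ x ∈ verts K, x ∈ verts (F \ K) → ∃ i, x = Z i := by
    intro x hx hx'
    obtain ⟨p, q, hpq⟩ := mem_verts.1 hx'
    rw [Finset.mem_sdiff] at hpq
    by_contra hne
    push Not at hne
    exact hpq.2 (hK2 x hx (fun i => hne (-i)) p q hpq.1)
  -- (3)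
  have f3 : ∀ x, x ∈ verts K → x ∈ verts (F \ K) →
      x ∈ verts (K \ D) ∧ x ∉ verts D ∧ d x = N := by
    intro x hx hx'
    obtain ⟨j, hj⟩ := onZ x hx hx'
    have hdx : d x = N := by rw [hj]; exact hZd j
    have hxD : x ∉ verts D := by
      intro hxD
      obtain ⟨p, q, hpq⟩ := mem_verts.1 hx'
      rw [Finset.mem_sdiff] at hpq
      obtain ⟨i, hi⟩ := onC x hxD p q hpq.1 (fun h => hpq.2 (hDK h))
      have := hA.dC i
      rw [← hi, hdx] at this
      have : (N : ℤ) = 0 := this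
      omega
    refine ⟨?_, hxD, hdx⟩
    obtain ⟨p, q, hpq⟩ := mem_verts.1 hx
    exact mem_verts.2 ⟨p, q, Finset.mem_sdiff.2 ⟨hpq, fun h => hxD (mem_verts.2 ⟨p, q, h⟩)⟩⟩
  have f6 : ∀ x ∈ verts D, x ∉ verts (F \ K) := by
    intro x hx hx'
    exact (f3 x (verts_mono hDK hx) hx').2.1 hx
  have f2 : ∀ i, C i ∈ verts (K \ D) ∧ C i ∈ verts D ∧ C i ∉ verts (F \ K) := by
    intro i
    have h := hD3 (-i)
    simp only [neg_neg] at h
    refine ⟨?_, h.1, f6 _ h.1⟩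
    obtain ⟨p, q, hpq⟩ := mem_verts.1 h.2
    rw [Finset.mem_sdiff] at hpq
    refine mem_verts.2 ⟨p, q, Finset.mem_sdiff.2 ⟨?_, hpq.2⟩⟩
    by_contra hn
    exact f6 _ h.1 (mem_verts.2 ⟨p, q, Finset.mem_sdiff.2 ⟨hpq.1, hn⟩⟩)
  have f4 : ∀ x, IntV F D K x → ∀ p q, (x, p, q) ∈ F → (x, p, q) ∈ K \ D := by
    intro x hx p q hpq
    rw [Finset.mem_sdiff]
    refine ⟨?_, fun h => hx.2.1 (mem_verts.2 ⟨p, q, h⟩)⟩
    by_contra hn
    exact hx.2.2 (mem_verts.2 ⟨p, q, Finset.mem_sdiff.2 ⟨hpq, hn⟩⟩)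
  have hKrot : RotC K := hZs.rot
  have hDrot : RotC D := hA.sideD.rot
  have hArot : RotC (K \ D) := rotC_sdiff hKrot hDrot
  have f1 : ∀ x ∈ verts (K \ D),
      IntV F D K x ∨ (∃ i, x = C i) ∨ (x ∈ verts K ∧ x ∈ verts (F \ K)) := by
    intro x hx
    have hxK : x ∈ verts K := verts_mono Finset.sdiff_subset hx
    by_cases h1 : x ∈ verts (F \ K)
    · exact Or.inr (Or.inr ⟨hxK, h1⟩)
    by_cases h2 : x ∈ verts D
    · obtain ⟨p, q, hpq⟩ := mem_verts.1 hx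
      rw [Finset.mem_sdiff] at hpq
      exact Or.inr (Or.inl (onC x h2 p q (hKF hpq.1) hpq.2))
    · exact Or.inl ⟨hxK, h2, h1⟩
  have f8 : ∀ x ∈ verts (K \ D), ∀ y ∈ verts (K \ D), Adj F x y →
      ∃ c, (x, y, c) ∈ K \ D ∨ (y, x, c) ∈ K \ D := by
    intro x hx y hy hxy
    have hyx := hP.adj_symm hxy
    rcases f1 x hx with h | h | h
    · obtain ⟨c, hc⟩ := hxy
      exact ⟨c, Or.inl (f4 x h _ _ hc)⟩
    · rcases f1 y hy with h' | h' | h'
      · obtain ⟨c, hc⟩ := hyx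
        exact ⟨c, Or.inr (f4 y h' _ _ hc)⟩
      · obtain ⟨i, rfl⟩ := h
        obtain ⟨j, rfl⟩ := h'
        -- the dart (C (k+1), C k) is a jump of D
        have key : ∀ k, ∃ c, (C k, C (k + 1), c) ∈ K \ D := by
          intro k
          have hj : Jump F D (C (k + 1)) (C k) := by
            rw [hA.sideD.jump]
            exact ⟨-(k + 1), by simp, by simp⟩
          obtain ⟨-, c, hc1, hc2⟩ := hj
          refine ⟨c, Finset.mem_sdiff.2 ⟨?_, hc2⟩⟩
          by_contra hn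
          exact (f2 k).2.2 (mem_verts.2 ⟨_, _, Finset.mem_sdiff.2 ⟨hc1, hn⟩⟩)
        rcases hA.chC i j hxy with e | e
        · obtain ⟨c, hc⟩ := key i
          exact ⟨c, Or.inl (by rw [e]; exact hc)⟩
        · obtain ⟨c, hc⟩ := key j
          exact ⟨c, Or.inr (by rw [e]; exact hc)⟩
      · obtain ⟨i, rfl⟩ := h
        obtain ⟨c, hc⟩ := hyx
        refine ⟨c, Or.inr (Finset.mem_sdiff.2 ⟨?_, ?_⟩)⟩
        · by_contra hn
          have : (C i, c, y) ∈ F \ K := by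
            refine Finset.mem_sdiff.2 ⟨hP.rot _ _ _ hc, fun h => hn ?_⟩
            exact hKrot _ _ _ (hKrot _ _ _ h)
          exact (f2 i).2.2 (mem_verts.2 ⟨_, _, this⟩)
        · intro h
          exact (f3 y h'.1 h'.2).2.1 (mem_verts.2 ⟨_, _, h⟩)
    · rcases f1 y hy with h' | h' | h'
      · obtain ⟨c, hc⟩ := hyx
        exact ⟨c, Or.inr (f4 y h' _ _ hc)⟩
      · obtain ⟨i, rfl⟩ := h'
        obtain ⟨c, hc⟩ := hxy
        refine ⟨c, Or.inl (Finset.mem_sdiff.2 ⟨?_, ?_⟩)⟩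
        · by_contra hn
          have : (C i, c, x) ∈ F \ K := by
            refine Finset.mem_sdiff.2 ⟨hP.rot _ _ _ hc, fun h => hn ?_⟩
            exact hKrot _ _ _ (hKrot _ _ _ h)
          exact (f2 i).2.2 (mem_verts.2 ⟨_, _, this⟩)
        · intro h''
          exact (f3 x h.1 h.2).2.1 (mem_verts.2 ⟨_, _, h''⟩)
      · exact hA.chK x y h.1 h.2 h'.1 h'.2 hxy
  refine ⟨f1, f2, f3, f4, ?_, f6, ?_, f8, ?_, ?_⟩
  · intro x hx y hxy
    obtain ⟨c, hc⟩ := hxy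
    exact mem_verts.2 ⟨_, _, hArot _ _ _ (f4 x hx _ _ hc)⟩
  · intro x hx hne hx'
    obtain ⟨p, q, hpq⟩ := mem_verts.1 hx'
    rw [Finset.mem_sdiff] at hpq
    obtain ⟨i, hi⟩ := onC x hx p q (hKF hpq.1) hpq.2
    exact hne i hi
  · intro x hx y hy hxy
    obtain ⟨c, hc⟩ := f8 x hx y hy hxy
    have hθ : θ y = θ x ∨ θ y = θ x + 1 ∨ θ x = θ y + 1 := by
      rcases hc with hc | hc
      · exact hA.thA _ _ _ hc
      · rcases hA.thA _ _ _ hc with h | h | h
        · exact Or.inl h.symm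
        · exact Or.inr (Or.inr h)
        · exact Or.inr (Or.inl h)
    refine ⟨dl_cast hθ, dl_anti hb3 θ x y, dl_abs θ x y, ?_⟩
    rcases hc with hc | hc
    · exact hA.dA _ _ _ hc
    · rw [abs_sub_comm]; exact hA.dA _ _ _ hc
  · intro hb4 x y c hxyc
    have h1 := hA.thA _ _ _ hxyc
    have h2 := hA.thA _ _ _ (hArot _ _ _ hxyc)
    have h3 := hA.thA _ _ _ (hArot _ _ _ (hArot _ _ _ hxyc))
    have e : (((dl θ x y + dl θ y c + dl θ c x : ℤ)) : ZMod b) = 0 := by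
      push_cast
      rw [dl_cast h1, dl_cast h2, dl_cast h3]
      ring
    rw [ZMod.intCast_zmod_eq_zero_iff_dvd] at e
    have a1 := abs_le.1 (dl_abs θ x y)
    have a2 := abs_le.1 (dl_abs θ y c)
    have a3 := abs_le.1 (dl_abs θ c x)
    by_contra hne
    have := Int.le_of_dvd (a := (b : ℤ)) (b := |dl θ x y + dl θ y c + dl θ c x|)
      (abs_pos.2 hne) ((dvd_abs _ _).2 e)
    have h4 : |dl θ x y + dl θ y c + dl θ c x| ≤ 3 := abs_le.2 ⟨by linarith [a1.1, a2.1, a3.1], by linarith [a1.2, a2.2, a3.2]⟩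
    have : (b : ℤ) ≤ 3 := le_trans this h4
    omega

end Pool.Agent.H3.RCR
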