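import Pool.Agent.H39.RCR.P0

/-! # RCR, module P1: a separating triangle through an inner vertex bounds a part of the annulus -/

namespace Pool.Agent.H3.RCR.P1

open Relation Pool.Agent.H3.RCR.P0

theorem sum_rot {M : Type} [AddCommMonoid M] {S : Finset Tri} (hS : RotC S) (f : Tri → M) :
    ∑ t ∈ S, f (t.2.1, t.2.2, t.1) = ∑ t ∈ S, f t := by
  refine Finset.sum_nbij' (fun t => (t.2.1, t.2.2, t.1)) (fun t => (t.2.2, t.1, t.2.1)) ?_ ?_ ?_ ?_ ?_
  · rintro ⟨a, b, c⟩ h; exact hS _ _ _ h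
  · rintro ⟨a, b, c⟩ h; exact hS _ _ _ (hS _ _ _ h)
  · rintro ⟨a, b, c⟩ _; rfl
  · rintro ⟨a, b, c⟩ _; rfl
  · rintro ⟨a, b, c⟩ _; rfl

theorem sum_curl {S : Finset Tri} (hS : RotC S) (ψ : ℕ → ℕ → ℤ)
    (h : ∀ x y c, (x, y, c) ∈ S → ψ x y + ψ y c + ψ c x = 0) :
    ∑ t ∈ S, ψ t.1 t.2.1 = 0 := by
  have h1 : ∑ t ∈ S, ψ t.2.1 t.2.2 = ∑ t ∈ S, ψ t.1 t.2.1 := sum_rot hS (fun t => ψ t.1 t.2.1)
  have h2 : ∑ t ∈ S, ψ t.2.2 t.1 = ∑ t ∈ S, ψ t.2.1 t.2.2 := sum_rot hS (fun t => ψ t.2.1 t.2.2)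
  have h3 : ∑ t ∈ S, (ψ t.1 t.2.1 + ψ t.2.1 t.2.2 + ψ t.2.2 t.1) = 0 := by
    apply Finset.sum_eq_zero
    rintro ⟨a, b, c⟩ ht
    exact h _ _ _ ht
  rw [Finset.sum_add_distrib, Finset.sum_add_distrib, h2, h1] at h3
  omega

/-- the sum of a small multiple of `b` is zero -/
theorem small_zero {b : ℕ} (hb : 4 ≤ b) {s : ℤ} (h : (s : ZMod b) = 0) (h3 : |s| ≤ 3) : s = 0 := by
  rw [ZMod.intCast_zmod_eq_zero_iff_dvd] at h
  by_contra hne
  have := Int.le_of_dvd (a := (b : ℤ)) (b := |s|) (abs_pos.2 hne) ((dvd_abs _ _).2 h)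
  omega

theorem abs3 {a b c : ℤ} (h1 : |a| ≤ 1) (h2 : |b| ≤ 1) (h3 : |c| ≤ 1) : |a + b + c| ≤ 3 := by
  rw [abs_le] at *
  constructor <;> omega

end P1

open P0 P1

theorem p1 (h6 : A6Stmt) (h7 : A7Stmt) (h0 : A0Stmt) (h20 : A20Stmt) (hp0 : P0Stmt) : P1Stmt := by
  intro F D K b N C θ d hF hb hN hA x y z hx hxy hyz hzx
  have hP : Pre F := hF.toPre
  obtain ⟨f1, f2, f3, f4, f5, f6', f7, f8, f9, f10⟩ := hp0 F D K b N C θ d hF hN hA
  have hb3 : 3 ≤ b := by omega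
  have hyA : y ∈ verts (K \ D) := f5 x hx y hxy
  have hzA : z ∈ verts (K \ D) := f5 x hx z (hP.adj_symm hzx)
  have hxA : x ∈ verts (K \ D) := by
    obtain ⟨c, hc⟩ := hxy
    exact mem_verts.2 ⟨_, _, f4 x hx _ _ hc⟩
  have hc' : Cyc F (fun i => C (-i)) := cyc_neg hP hA.cyc
  obtain ⟨hDc, -, -⟩ := h7 F hF b _ D hc' hA.sideD
  obtain ⟨zz, Z, hZc, hZs, hZd⟩ := hA.sideK
  have hZc' : Cyc F (fun i => Z (-i)) := cyc_neg hP hZc
  have hZo := (h6 F hF zz (fun i => Z (-i))).2 K hZs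
  have hZc'' : Cyc F (fun i => (fun i => Z (-i)) (-i)) := by simpa using hZc
  obtain ⟨hOc, -, -⟩ := h7 F hF zz _ (F \ K) hZc'' hZo
  have hKF : K ⊆ F := hZs.sub
  have hDF : D ⊆ F := hA.sideD.sub
  have hKrot : RotC K := hZs.rot
  have hDrot : RotC D := hA.sideD.rot
  have hArot : RotC (K \ D) := rotC_sdiff hKrot hDrot
  have hOrot : RotC (F \ K) := rotC_sdiff hP.rot hKrot
  -- the integral steps around the triangle add up to zero
  have tri0 : dl θ x y + dl θ y z + dl θ z x = 0 := by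
    obtain ⟨e1, -, a1, -⟩ := f9 x hxA y hyA hxy
    obtain ⟨e2, -, a2, -⟩ := f9 y hyA z hzA hyz
    obtain ⟨e3, -, a3, -⟩ := f9 z hzA x hxA hzx
    refine small_zero hb ?_ (abs3 a1 a2 a3)
    push_cast
    rw [e1, e2, e3]
    ring
  -- the sum over D
  have sumD : ∑ t ∈ D, dl θ t.1 t.2.1 = -(b : ℤ) := by
    rw [h20 ℤ F D b (fun i => C (-i)) (dl θ) hP hc' hA.sideD (dl_anti hb3 θ)]
    have : ∀ i ∈ Finset.range b, dl θ ((fun i => C (-i)) (i : ZMod b))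
        ((fun i => C (-i)) ((i : ZMod b) + 1)) = -1 := by
      intro i _
      rw [dl_anti hb3 θ]
      have e : θ (C (-(i : ZMod b))) = θ (C (-((i : ZMod b) + 1))) + 1 := by
        rw [hA.thC, hA.thC]; ring
      simp only [dl, if_pos e]
    rw [Finset.sum_congr rfl this]
    simp
  -- the contradiction
  have key : ∀ u v w : ℕ, ∀ R : Finset Tri, Side3 F u v w R →
      dl θ u v + dl θ v w + dl θ w u = 0 → D ⊆ R → (∀ t ∈ F \ K, t ∉ R) → False := by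
    intro u v w R hR h3 hDR hOR
    have hc := (h0.1 F u v w R hP).1 hR
    have h1 := h20 ℤ F R 3 (c3 u v w) (dl θ) hP hc.1 hc.2 (dl_anti hb3 θ)
    have h2 : ∑ i ∈ Finset.range 3, dl θ (c3 u v w (i : ZMod 3)) (c3 u v w ((i : ZMod 3) + 1)) =
        dl θ u v + dl θ v w + dl θ w u := by
      simp only [Finset.sum_range_succ, Finset.sum_range_zero, zero_add]
      have e0 : c3 u v w ((0 : ℕ) : ZMod 3) = u := by simp [c3]
      have e1 : c3 u v w ((1 : ℕ) : ZMod 3) = v := by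
        have : ((1 : ℕ) : ZMod 3) ≠ 0 := by decide
        simp [c3]
      have e2 : c3 u v w ((2 : ℕ) : ZMod 3) = w := by
        have h1 : ((2 : ℕ) : ZMod 3) ≠ 0 := by decide
        have h2 : ((2 : ℕ) : ZMod 3) ≠ 1 := by decide
        simp only [c3, if_neg h1, if_neg h2]
      have e1' : c3 u v w (((0 : ℕ) : ZMod 3) + 1) = v := by
        have : (((0 : ℕ) : ZMod 3) + 1) = ((1 : ℕ) : ZMod 3) := by decide
        rw [this, e1]
      have e2' : c3 u v w (((1 : ℕ) : ZMod 3) + 1) = w := by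
        have : (((1 : ℕ) : ZMod 3) + 1) = ((2 : ℕ) : ZMod 3) := by decide
        rw [this, e2]
      have e3' : c3 u v w (((2 : ℕ) : ZMod 3) + 1) = u := by
        have : (((2 : ℕ) : ZMod 3) + 1) = ((0 : ℕ) : ZMod 3) := by decide
        rw [this, e0]
      rw [e0, e1, e2, e1', e2', e3']
    rw [h2, h3] at h1
    have hs : ∑ t ∈ R \ D, dl θ t.1 t.2.1 = 0 := by
      apply sum_curl (rotC_sdiff hR.rot hDrot)
      intro p q r hpq
      rw [Finset.mem_sdiff] at hpq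
      refine f10 hb p q r (Finset.mem_sdiff.2 ⟨?_, hpq.2⟩)
      by_contra hn
      exact hOR _ (Finset.mem_sdiff.2 ⟨hR.sub hpq.1, hn⟩) hpq.1
    have h4 := Finset.sum_sdiff hDR (f := fun t : Tri => dl θ t.1 t.2.1)
    rw [hs, sumD, h1] at h4
    omega
  obtain ⟨R, hR⟩ := (h0.2 F x y z hF).1 hxy hyz hzx
  obtain ⟨-, hR', -⟩ := (h0.2 F x y z hF).2 R hR
  -- a connected part is on one side
  have part : ∀ P : Finset Tri, P ⊆ F → RotC P → DConn P → x ∉ verts P →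
      (∀ c e, (y, z, c) ∈ P → (z, y, e) ∈ P → False) → P ⊆ R ∨ ∀ t ∈ P, t ∉ R := by
    intro P hPF hProt hPc hxP hno
    by_cases h : ∃ s ∈ P, s ∈ R
    · obtain ⟨s, hs, hsR⟩ := h
      left
      intro t ht
      refine hPc (fun t => t ∈ R) (fun a b c _ h => hR.rot _ _ _ h) ?_ s hs t ht hsR
      intro a b c e h1 h2 h3
      by_contra hn
      have hj : Jump F R a b := ⟨⟨c, h3⟩, e, hPF h2, hn⟩
      rw [hR.jump] at hj
      rcases hj with ⟨rfl, rfl⟩ | ⟨rfl, rfl⟩ | ⟨rfl, rfl⟩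
      · exact hxP (mem_verts.2 ⟨_, _, h1⟩)
      · exact hno _ _ h1 h2
      · exact hxP (mem_verts.2 ⟨_, _, h2⟩)
    · right
      intro t ht htR
      exact h ⟨t, ht, htR⟩
  have noD : ∀ c e, (y, z, c) ∈ D → (z, y, e) ∈ D → False := by
    intro c e h1 h2
    obtain ⟨g, hg | hg⟩ := f8 y hyA z hzA hyz
    · rw [Finset.mem_sdiff] at hg
      have := hP.uniq _ _ _ _ (hDF h1) (hKF hg.1)
      subst this
      exact hg.2 h1
    · rw [Finset.mem_sdiff] at hg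
      have := hP.uniq _ _ _ _ (hDF h2) (hKF hg.1)
      subst this
      exact hg.2 h2
  have noO : ∀ c e, (y, z, c) ∈ F \ K → (z, y, e) ∈ F \ K → False := by
    intro c e h1 h2
    rw [Finset.mem_sdiff] at h1 h2
    obtain ⟨g, hg | hg⟩ := f8 y hyA z hzA hyz
    · rw [Finset.mem_sdiff] at hg
      have := hP.uniq _ _ _ _ h1.1 (hKF hg.1)
      subst this
      exact h1.2 hg.1
    · rw [Finset.mem_sdiff] at hg
      have := hP.uniq _ _ _ _ h2.1 (hKF hg.1)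
      subst this
      exact h2.2 hg.1
  have tri0' : dl θ x z + dl θ z y + dl θ y x = 0 := by
    rw [dl_anti hb3 θ x z, dl_anti hb3 θ z y, dl_anti hb3 θ y x]
    linarith
  rcases part D hDF hDrot hDc hx.2.1 noD with h1 | h1
  · rcases part (F \ K) Finset.sdiff_subset hOrot hOc hx.2.2 noO with h2 | h2
    · refine ⟨F \ R, Or.inr hR', ?_⟩
      intro t ht
      rw [Finset.mem_sdiff] at ht ⊢
      refine ⟨?_, fun h => ht.2 (h1 h)⟩
      by_contra hn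
      exact ht.2 (h2 (Finset.mem_sdiff.2 ⟨ht.1, hn⟩))
    · exact absurd h2 (fun h2 => key x y z R hR tri0 h1 h2)
  · rcases part (F \ K) Finset.sdiff_subset hOrot hOc hx.2.2 noO with h2 | h2
    · exfalso
      refine key x z y (F \ R) hR' tri0' ?_ ?_
      · intro t ht
        exact Finset.mem_sdiff.2 ⟨hDF ht, h1 t ht⟩
      · intro t ht ht'
        exact (Finset.mem_sdiff.1 ht').2 (h2 ht)
    · refine ⟨R, Or.inl hR, ?_⟩
      intro t ht
      rw [Finset.mem_sdiff]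
      refine ⟨?_, fun h => h1 t h ht⟩
      by_contra hn
      exact h2 t (Finset.mem_sdiff.2 ⟨hR.sub ht, hn⟩) ht

end Pool.Agent.H3.RCR
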