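import Pool.Agent.H39.RCR.P1

/-! # RCR, module P2: contraction of a double-zero edge -/

namespace Pool.Agent.H3.RCR.P2

open Relation Pool.Agent.H3.RCR.P0

/-- jumps of a part contained in two surfaces -/
theorem jump_congr {F F' S : Finset Tri} (hF : Pre F) (hF' : Pre F') (h : S ⊆ F) (h' : S ⊆ F')
    (a b : ℕ) : Jump F S a b ↔ Jump F' S a b := by
  have key : ∀ {F F' : Finset Tri}, Pre F → Pre F' → S ⊆ F → S ⊆ F' → Jump F S a b →
      Jump F' S a b := by
    intro F F' hF hF' h h' hj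
    obtain ⟨⟨c, hc⟩, e, he, hn⟩ := hj
    obtain ⟨g, hg⟩ := hF'.opp _ _ _ (h' hc)
    refine ⟨⟨c, hc⟩, g, hg, fun hgS => hn ?_⟩
    have := hF.uniq _ _ _ _ he (h hgS)
    rw [this]; exact hgS
  exact ⟨key hF hF' h h', key hF' hF h' h⟩

theorem side_congr {F F' S : Finset Tri} (hF : Pre F) (hF' : Pre F') {m : ℕ} {c : ZMod m → ℕ}
    (h' : S ⊆ F') (hS : Side F c S) : Side F' c S where
  sub := h'
  rot := hS.rot
  jump := fun a b => by rw [← jump_congr hF hF' hS.sub h', hS.jump]

/-- the complement of the left side is the right side -/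
theorem side_compl {F S : Finset Tri} (hF : Pre F) {m : ℕ} {c : ZMod m → ℕ} (hS : Side F c S) :
    Side F (fun i => c (-i)) (F \ S) where
  sub := Finset.sdiff_subset
  rot := rotC_sdiff hF.rot hS.rot
  jump := fun a b => by
    have h1 : Jump F (F \ S) a b ↔ Jump F S b a := by
      constructor
      · rintro ⟨⟨c, hc⟩, d, hd, hn⟩
        rw [Finset.mem_sdiff] at hc
        refine ⟨⟨d, ?_⟩, c, hc.1, hc.2⟩
        by_contra h
        exact hn (Finset.mem_sdiff.2 ⟨hd, h⟩)
      · rintro ⟨⟨c, hc⟩, d, hd, hn⟩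
        exact ⟨⟨d, Finset.mem_sdiff.2 ⟨hd, hn⟩⟩, c, hS.sub hc,
          fun h => (Finset.mem_sdiff.1 h).2 hc⟩
    rw [h1, hS.jump]
    constructor
    · rintro ⟨i, h1, h2⟩
      refine ⟨-(i + 1), by simp [h2], ?_⟩
      rw [h1]; congr 1; ring
    · rintro ⟨i, h1, h2⟩
      refine ⟨-(i + 1), h2, ?_⟩
      rw [h1]; congr 1; ring

theorem sub1_ne {u v x : ℕ} (h : x ≠ u) : sub1 u v x = x := by simp [sub1, h]

theorem sub1_self (u v : ℕ) : sub1 u v u = v := by simp [sub1]

end P2

open P0 P1 P2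

theorem p2 (h1 : A1Stmt) (hp0 : P0Stmt) : P2Stmt := by
  intro F D K b N C θ d x y hF hb hN hA hx hok hθ hd
  have hP : Pre F := hF.toPre
  obtain ⟨f1, f2, f3, f4, f5, f6, f7, f8, f9, f10⟩ := hp0 F D K b N C θ d hF hN hA
  obtain ⟨hP', hv', -, hadj, -, hkeep, hnew, hat⟩ := h1 F x y hP hok
  have hxy : x ≠ y := hP.adj_ne hok.adj
  obtain ⟨zz, Z, hZc, hZs, hZd⟩ := hA.sideK
  have hKF : K ⊆ F := hZs.sub
  have hDF : D ⊆ F := hA.sideD.sub
  have hKrot : RotC K := hZs.rot
  have hDrot : RotC D := hA.sideD.rot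
  have hArot : RotC (K \ D) := rotC_sdiff hKrot hDrot
  have hOrot : RotC (F \ K) := rotC_sdiff hP.rot hKrot
  -- parts without x survive
  have surv : ∀ S : Finset Tri, S ⊆ F → RotC S → x ∉ verts S → S ⊆ contr F x y := by
    intro S hS hr hxS t ht
    refine hkeep t (hS ht) ?_
    intro hv
    exact hxS (isV_mem_verts hr ht hv)
  have hDF' : D ⊆ contr F x y := surv D hDF hDrot hx.2.1
  have hOF' : F \ K ⊆ contr F x y := surv _ Finset.sdiff_subset hOrot hx.2.2
  have hDO : ∀ t ∈ D, t ∉ F \ K := fun t ht h => (Finset.mem_sdiff.1 h).2 (hA.sub ht)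
  have hcompl : contr F x y \ (contr F x y \ (F \ K)) = F \ K := by
    rw [Finset.sdiff_sdiff_eq_self hOF']
  -- triples of the new annulus come from the old one
  have back : ∀ p q r, (p, q, r) ∈ (contr F x y \ (F \ K)) \ D →
      ∃ p' q' r', (p', q', r') ∈ K \ D ∧ sub1 x y p' = p ∧ sub1 x y q' = q ∧ sub1 x y r' = r := by
    intro p q r h
    rw [Finset.mem_sdiff, Finset.mem_sdiff] at h
    obtain ⟨⟨h1, h2⟩, h3⟩ := h
    obtain ⟨-, ⟨p', q', r'⟩, ht, he⟩ := mem_quo.1 h1
    simp only [mapT, Prod.mk.injEq] at he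
    obtain ⟨e1, e2, e3⟩ := he
    refine ⟨p', q', r', ?_, e1, e2, e3⟩
    by_cases hv : isV x (p', q', r')
    · rcases hv with hv | hv | hv
      · simp only at hv
        subst hv
        exact f4 _ hx _ _ ht
      · simp only at hv
        subst hv
        exact hArot _ _ _ (hArot _ _ _ (f4 _ hx _ _ (hP.rot _ _ _ ht)))
      · simp only at hv
        subst hv
        exact hArot _ _ _ (f4 _ hx _ _ (hP.rot _ _ _ (hP.rot _ _ _ ht)))
    · have n1 : p' ≠ x := fun h => hv (Or.inl h.symm)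
      have n2 : q' ≠ x := fun h => hv (Or.inr (Or.inl h.symm))
      have n3 : r' ≠ x := fun h => hv (Or.inr (Or.inr h.symm))
      rw [sub1_ne n1] at e1
      rw [sub1_ne n2] at e2
      rw [sub1_ne n3] at e3
      subst e1; subst e2; subst e3
      rw [Finset.mem_sdiff]
      refine ⟨?_, h3⟩
      by_contra hn
      exact h2 (Finset.mem_sdiff.2 ⟨ht, hn⟩)
  have hθs : ∀ a, θ (sub1 x y a) = θ a := by
    intro a
    by_cases h : a = x
    · rw [h, sub1_self, hθ]
    · rw [sub1_ne h]
  have hds : ∀ a, d (sub1 x y a) = d a := by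
    intro a
    by_cases h : a = x
    · rw [h, sub1_self, hd]
    · rw [sub1_ne h]
  have vK : ∀ u ∈ verts (contr F x y \ (F \ K)), u ∈ verts K := by
    intro u hu
    obtain ⟨p, q, hpq⟩ := mem_verts.1 hu
    by_cases hD : (u, p, q) ∈ D
    · exact verts_mono hA.sub (mem_verts.2 ⟨_, _, hD⟩)
    · obtain ⟨u', p', q', h, e1, -, -⟩ := back u p q (Finset.mem_sdiff.2 ⟨hpq, hD⟩)
      by_cases hu' : u' = x
      · subst hu'
        rw [sub1_self] at e1
        subst e1
        exact verts_mono Finset.sdiff_subset (f5 _ hx _ hok.adj)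
      · rw [sub1_ne hu'] at e1
        subst e1
        exact verts_mono Finset.sdiff_subset (mem_verts.2 ⟨_, _, h⟩)
  have hZo : ∀ i, Z i ∈ verts (F \ K) := by
    intro i
    have hj : Jump F K (Z (i + 1)) (Z i) := by
      rw [hZs.jump]
      exact ⟨-(i + 1), by simp, by simp⟩
    obtain ⟨-, e, he, hn⟩ := hj
    exact mem_verts.2 ⟨_, _, Finset.mem_sdiff.2 ⟨he, hn⟩⟩
  have hZx : ∀ i, Z i ≠ x := fun i h => hx.2.2 (by rw [← h]; exact hZo i)
  have hCx : ∀ i, C i ≠ x := fun i h => hx.2.1 (by rw [← h]; exact (f2 i).2.1)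
  refine ⟨contr F x y \ (F \ K), ?_, hcompl, ?_⟩
  swap
  · intro u hu
    refine ⟨vK u hu.1, hu.2.1, ?_⟩
    have := hu.2.2
    rwa [hcompl] at this
  refine ⟨⟨hA.cyc.three, hA.cyc.inj, ?_⟩, ?_, ?_, ?_, hA.thC, hA.dC, ?_, ?_, ?_, ?_⟩
  · intro i
    rw [hadj]
    exact ⟨hP.adj_ne (hA.cyc.adj i), _, _, hA.cyc.adj i, sub1_ne (hCx _), sub1_ne (hCx _)⟩
  · exact side_congr hP hP' hDF' hA.sideD
  · intro t ht
    exact Finset.mem_sdiff.2 ⟨hDF' ht, hDO t ht⟩
  · refine ⟨zz, Z, ⟨hZc.three, hZc.inj, ?_⟩, ?_, hZd⟩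
    · intro i
      rw [hadj]
      exact ⟨hP.adj_ne (hZc.adj i), _, _, hZc.adj i, sub1_ne (hZx _), sub1_ne (hZx _)⟩
    · have s1 := side_compl hP hZs
      simp only [neg_neg] at s1
      have s2 := side_congr hP hP' hOF' s1
      exact side_compl hP' s2
  · intro p q r h
    obtain ⟨p', q', r', h', rfl, rfl, -⟩ := back _ _ _ h
    rw [hθs, hθs]
    exact hA.thA _ _ _ h'
  · intro p q r h
    obtain ⟨p', q', r', h', rfl, rfl, -⟩ := back _ _ _ h
    rw [hds, hds]
    exact hA.dA _ _ _ h'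
  · intro i j h
    rw [hadj] at h
    obtain ⟨hne, a', b', hab, ea, eb⟩ := h
    have far : ∀ k l, C k = y → Adj F x (C l) → l = k ∨ l = k + 1 ∨ k = l + 1 := by
      intro k l hk hl
      obtain ⟨c, hc⟩ := hl
      have := hA.thA _ _ _ (f4 x hx _ _ hc)
      rw [hθ, ← hk, hA.thC, hA.thC] at this
      exact this
    by_cases ha : a' = x
    · have hb' : b' ≠ x := fun h => hP.adj_ne hab (by rw [ha, h])
      rw [ha, sub1_self] at ea
      rw [sub1_ne hb'] at eb
      rw [ha, eb] at hab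
      rcases far i j ea.symm hab with h | h | h
      · exact absurd (by rw [h]) hne
      · exact Or.inl h
      · exact Or.inr h
    · by_cases hb' : b' = x
      · rw [hb', sub1_self] at eb
        rw [sub1_ne ha] at ea
        rw [hb', ea] at hab
        rcases far j i eb.symm (hP.adj_symm hab) with h | h | h
        · exact absurd (by rw [h]) hne
        · exact Or.inr h
        · exact Or.inl h
      · rw [sub1_ne ha] at ea
        rw [sub1_ne hb'] at eb
        rw [ea, eb] at hab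
        exact hA.chC i j hab
  · rw [hcompl]
    intro z z' hz1 hz2 hz1' hz2' hadj'
    have hzK := vK z hz1
    have hzK' := vK z' hz1'
    obtain ⟨-, hzD, hzd⟩ := f3 z hzK hz2
    obtain ⟨-, hzD', hzd'⟩ := f3 z' hzK' hz2'
    have hzx : z ≠ x := fun h => hx.2.2 (h ▸ hz2)
    have hzx' : z' ≠ x := fun h => hx.2.2 (h ▸ hz2')
    -- a sufficient condition
    have suff : ∀ u w, u ∉ verts D → ∀ c, (u, w, c) ∈ contr F x y → (u, w, c) ∉ F \ K →
        (u, w, c) ∈ (contr F x y \ (F \ K)) \ D := by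
      intro u w hu c h1 h2
      exact Finset.mem_sdiff.2 ⟨Finset.mem_sdiff.2 ⟨h1, h2⟩, fun h => hu (mem_verts.2 ⟨_, _, h⟩)⟩
    -- case of an old edge with a face in the annulus
    have old : ∀ u w, u ∉ verts D → u ≠ x → w ≠ x → ∀ c, (u, w, c) ∈ K \ D →
        ∃ c, (u, w, c) ∈ (contr F x y \ (F \ K)) \ D := by
      intro u w hu hux hwx c hc
      rw [Finset.mem_sdiff] at hc
      have hcF := hKF hc.1
      by_cases hcx : c = x
      · subst hcx
        by_cases huy : u = y
        · subst huy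
          -- (u, w, c), c inner; the other face at the edge w c
          obtain ⟨e, he⟩ := hP.opp _ _ _ (hP.rot _ _ _ hcF)
          have hey : e ≠ u := by
            rintro rfl
            exact hok.dist w ⟨hP.rot2 hcF, hP.rot2 he⟩
          have hwy : w ≠ u := fun h => hP.ne _ _ _ hcF h.symm
          have h3 := hnew w e he hwy hey
          refine ⟨e, suff _ _ hu _ h3 ?_⟩
          intro h4
          have h5 := hP.uniq _ _ _ _ (Finset.mem_sdiff.1 h4).1 hcF
          subst h5
          exact (hP.nd he).2.2 rfl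
        · by_cases hwy : w = y
          · subst hwy
            obtain ⟨e, he⟩ := hP.opp _ _ _ (hP.rot2 hcF)
            have hey : e ≠ w := by
              rintro rfl
              exact hok.dist u ⟨hP.rot _ _ _ he, hP.rot _ _ _ hcF⟩
            have h3 := hnew e u (hP.rot _ _ _ he) hey huy
            have h4 := hP'.rot2 h3
            refine ⟨e, suff _ _ hu _ h4 ?_⟩
            intro h5
            have h6 := hP.uniq _ _ _ _ (Finset.mem_sdiff.1 h5).1 hcF
            subst h6
            exact (hP.nd he).2.1 rfl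
          · have h3 := hnew u w (hP.rot2 hcF) huy hwy
            have h4 := hP'.rot _ _ _ h3
            refine ⟨y, suff _ _ hu _ h4 ?_⟩
            intro h5
            have h6 := hP.uniq _ _ _ _ (Finset.mem_sdiff.1 h5).1 hcF
            exact hxy h6.symm
      · refine ⟨c, suff _ _ hu _ (hkeep _ hcF ?_) ?_⟩
        · rintro (h | h | h)
          · exact hux h.symm
          · exact hwx h.symm
          · exact hcx h.symm
        · intro h
          exact (Finset.mem_sdiff.1 h).2 hc.1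
    -- case of a new edge
    have new : ∀ w, y ∉ verts D → w ∉ verts D → w ≠ y → w ≠ x → Adj F x w →
        ∃ c, (y, w, c) ∈ (contr F x y \ (F \ K)) \ D ∨ (w, y, c) ∈ (contr F x y \ (F \ K)) \ D := by
      intro w hyD hwD hwy hwx hxw
      obtain ⟨e, he⟩ := hxw
      obtain ⟨e', he'⟩ := hP.opp _ _ _ he
      by_cases h : e = y
      · have h' : e' ≠ y := by
          rintro rfl
          subst h
          exact hok.dist w ⟨hP.rot _ _ _ he', hP.rot2 he⟩
        have h3 := hnew e' w (hP.rot _ _ _ he') h' hwy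
        have h4 := hP'.rot2 h3
        refine ⟨e', Or.inr (suff _ _ hwD _ h4 ?_)⟩
        intro h5
        have h6 := hP.uniq _ _ _ _ (hP.rot2 (Finset.mem_sdiff.1 h5).1) (hP.rot2 he')
        exact hxy h6.symm
      · have h3 := hnew w e he hwy h
        refine ⟨e, Or.inl (suff _ _ hyD _ h3 ?_)⟩
        intro h5
        have h6 := hP.uniq' (Finset.mem_sdiff.1 h5).1 he
        exact hxy h6.symm
    rw [hadj] at hadj'
    obtain ⟨hne, a', b', hab, ea, eb⟩ := hadj'
    by_cases ha : a' = x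
    · have hb' : b' ≠ x := fun h => hP.adj_ne hab (by rw [ha, h])
      rw [ha, sub1_self] at ea
      rw [sub1_ne hb'] at eb
      rw [ha, eb] at hab
      subst ea
      exact new z' hzD hzD' (Ne.symm hne) hzx' hab
    · by_cases hb' : b' = x
      · rw [hb', sub1_self] at eb
        rw [sub1_ne ha] at ea
        rw [hb', ea] at hab
        subst eb
        obtain ⟨c, hc⟩ := new z hzD' hzD hne hzx (hP.adj_symm hab)
        exact ⟨c, hc.symm⟩
      · rw [sub1_ne ha] at ea
        rw [sub1_ne hb'] at eb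
        rw [ea, eb] at hab
        obtain ⟨c, hc | hc⟩ := hA.chK z z' hzK hz2 hzK' hz2' hab
        · obtain ⟨c', h⟩ := old z z' hzD hzx hzx' c hc
          exact ⟨c', Or.inl h⟩
        · obtain ⟨c', h⟩ := old z' z hzD' hzx' hzx c hc
          exact ⟨c', Or.inr h⟩

end Pool.Agent.H3.RCR
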