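import Pool.Agent.H39.RCR.P2

/-! # RCR, module P3: collapse of a part of the annulus bounded by a 3-cycle -/

namespace Pool.Agent.H3.RCR

open Relation P0 P1 P2

theorem p3 (h0 : A0Stmt) (h11 : A11Stmt) (h17 : A17Stmt) (hp0 : P0Stmt) : P3Stmt := by
  intro F D K b N C θ d x y z S hF hb hN hA hS hSA hx hy hz
  have hP : Pre F := hF.toPre
  obtain ⟨f1, f2, f3, f4, f5, f6, f7, f8, f9, f10⟩ := hp0 F D K b N C θ d hF hN hA
  obtain ⟨-, -, -, hinner, -⟩ := (h0.2 F x y z hF).2 S hS
  set F' := (F \ S) ∪ rots (x, y, z) with hF'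
  set K' := (K \ S) ∪ rots (x, y, z) with hK'
  have hSph' : Sph F' := (h17 _ _ F F' hF (h11 F x y z S hF hS)).1
  have hP' : Pre F' := hSph'.toPre
  obtain ⟨zz, Z, hZc, hZs, hZd⟩ := hA.sideK
  have hKF : K ⊆ F := hZs.sub
  have hDF : D ⊆ F := hA.sideD.sub
  have hKrot : RotC K := hZs.rot
  have hDrot : RotC D := hA.sideD.rot
  have hArot : RotC (K \ D) := rotC_sdiff hKrot hDrot
  have hOrot : RotC (F \ K) := rotC_sdiff hP.rot hKrot
  have hSK : S ⊆ K := fun t ht => (Finset.mem_sdiff.1 (hSA ht)).1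
  have hSD : ∀ t ∈ S, t ∉ D := fun t ht => (Finset.mem_sdiff.1 (hSA ht)).2
  -- the triangle x y z is not in D and not outside K
  have jxy : Jump F S x y := (hS.jump x y).2 (Or.inl ⟨rfl, rfl⟩)
  have jyz : Jump F S y z := (hS.jump y z).2 (Or.inr (Or.inl ⟨rfl, rfl⟩))
  have jzx : Jump F S z x := (hS.jump z x).2 (Or.inr (Or.inr ⟨rfl, rfl⟩))
  have hxyzS : (x, y, z) ∈ F → (x, y, z) ∈ S := by
    intro h
    obtain ⟨⟨c, hc⟩, -⟩ := jxy
    have := hP.uniq _ _ _ _ h (hS.sub hc)
    rw [this]; exact hc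
  have rotsS : ∀ t ∈ rots (x, y, z), t ∈ F → t ∈ S := by
    intro t ht htF
    have h1 := mem_of_mem_rots hP.rot ht htF
    exact rotC_rots_subset hS.rot (hxyzS h1) ht
  have rotsD : ∀ t ∈ rots (x, y, z), t ∉ D := fun t ht h => hSD t (rotsS t ht (hDF h)) h
  have rotsO : ∀ t ∈ rots (x, y, z), t ∉ F \ K := fun t ht h => by
    rw [Finset.mem_sdiff] at h
    exact h.2 (hSK (rotsS t ht h.1))
  have rxy : (x, y, z) ∈ rots (x, y, z) := by simp [rots]
  have ryz : (y, z, x) ∈ rots (x, y, z) := by simp [rots]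
  have rzx : (z, x, y) ∈ rots (x, y, z) := by simp [rots]
  have hDF' : D ⊆ F' := fun t ht => Finset.mem_union_left _
    (Finset.mem_sdiff.2 ⟨hDF ht, fun h => hSD t h ht⟩)
  have hOF' : F \ K ⊆ F' := fun t ht => Finset.mem_union_left _
    (Finset.mem_sdiff.2 ⟨(Finset.mem_sdiff.1 ht).1, fun h => (Finset.mem_sdiff.1 ht).2 (hSK h)⟩)
  have hK'F' : K' ⊆ F' := Finset.union_subset_union_left (Finset.sdiff_subset_sdiff hKF le_rfl)
  have hcompl : F' \ K' = F \ K := by
    ext t
    constructor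
    · intro h
      rw [Finset.mem_sdiff, hF', hK', Finset.mem_union, Finset.mem_union, Finset.mem_sdiff,
        Finset.mem_sdiff] at h
      rw [Finset.mem_sdiff]
      tauto
    · intro h
      refine Finset.mem_sdiff.2 ⟨hOF' h, ?_⟩
      intro h'
      rcases Finset.mem_union.1 h' with h' | h'
      · exact (Finset.mem_sdiff.1 h).2 (Finset.mem_sdiff.1 h').1
      · exact rotsO t h' h
  have hK'eq : F' \ (F \ K) = K' := by rw [← hcompl, Finset.sdiff_sdiff_eq_self hK'F']
  have vK : ∀ u ∈ verts K', u ∈ verts K := by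
    intro u hu
    obtain ⟨p, q, hpq⟩ := mem_verts.1 hu
    rcases Finset.mem_union.1 hpq with h | h
    · exact mem_verts.2 ⟨_, _, (Finset.mem_sdiff.1 h).1⟩
    · have hv := isV_of_mem_rots h (isV_fst (u, p, q))
      have sub := verts_mono (Finset.sdiff_subset (s := K) (t := D))
      rcases hv with h | h | h
      · simp only at h; rw [h]; exact sub hx
      · simp only at h; rw [h]; exact sub hy
      · simp only at h; rw [h]; exact sub hz
  -- darts of the new triangle are jumps of S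
  have rj : ∀ u w c, (u, w, c) ∈ rots (x, y, z) → Jump F S u w := by
    intro u w c h
    rcases mem_rots.1 h with h | h | h
    all_goals
      simp only [Prod.mk.injEq] at h
      obtain ⟨rfl, rfl, rfl⟩ := h
      assumption
  have adj' : ∀ u w, Adj F' u w → Adj F u w := by
    rintro u w ⟨c, hc⟩
    rcases Finset.mem_union.1 hc with h | h
    · exact ⟨c, (Finset.mem_sdiff.1 h).1⟩
    · obtain ⟨⟨c', hc'⟩, -⟩ := rj u w c h
      exact ⟨c', hS.sub hc'⟩
  have thd : ∀ u ∈ verts (K \ D), ∀ w ∈ verts (K \ D), Adj F u w →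
      (θ w = θ u ∨ θ w = θ u + 1 ∨ θ u = θ w + 1) ∧ |d w - d u| ≤ 1 := by
    intro u hu w hw h
    refine ⟨?_, (f9 u hu w hw h).2.2.2⟩
    obtain ⟨c, hc | hc⟩ := f8 u hu w hw h
    · exact hA.thA _ _ _ hc
    · rcases hA.thA _ _ _ hc with h | h | h
      · exact Or.inl h.symm
      · exact Or.inr (Or.inr h)
      · exact Or.inr (Or.inl h)
  have newA : ∀ u w c, (u, w, c) ∈ K' \ D →
      (θ w = θ u ∨ θ w = θ u + 1 ∨ θ u = θ w + 1) ∧ |d w - d u| ≤ 1 := by
    intro u w c h
    rw [Finset.mem_sdiff] at h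
    rcases Finset.mem_union.1 h.1 with h' | h'
    · have h2 : (u, w, c) ∈ K \ D := Finset.mem_sdiff.2 ⟨(Finset.mem_sdiff.1 h').1, h.2⟩
      exact ⟨hA.thA _ _ _ h2, hA.dA _ _ _ h2⟩
    · have hadj : Adj F u w := by
        obtain ⟨⟨c', hc'⟩, -⟩ := rj u w c h'
        exact ⟨c', hS.sub hc'⟩
      have hu : u ∈ verts (K \ D) := by
        rcases isV_of_mem_rots h' (isV_fst (u, w, c)) with h | h | h
        · simp only at h; rw [h]; exact hx
        · simp only at h; rw [h]; exact hy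
        · simp only at h; rw [h]; exact hz
      have hw : w ∈ verts (K \ D) := by
        rcases isV_of_mem_rots h' (show isV w (u, w, c) from Or.inr (Or.inl rfl)) with h | h | h
        · simp only at h; rw [h]; exact hx
        · simp only at h; rw [h]; exact hy
        · simp only at h; rw [h]; exact hz
      exact thd u hu w hw hadj
  refine ⟨?_, hcompl, ?_, ?_⟩
  · refine ⟨⟨hA.cyc.three, hA.cyc.inj, ?_⟩, side_congr hP hP' hDF' hA.sideD, ?_, ?_, hA.thC,
      hA.dC, fun u w c h => (newA u w c h).1, fun u w c h => (newA u w c h).2, ?_, ?_⟩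
    · intro i
      have hj : Jump F D (C (i + 1)) (C i) := by
        rw [hA.sideD.jump]
        exact ⟨-(i + 1), by simp, by simp⟩
      obtain ⟨⟨c, hc⟩, -⟩ := hj
      exact hP'.adj_symm ⟨c, hDF' hc⟩
    · intro t ht
      exact Finset.mem_union_left _ (Finset.mem_sdiff.2 ⟨hA.sub ht, fun h => hSD t h ht⟩)
    · have s1 := side_compl hP hZs
      simp only [neg_neg] at s1
      refine ⟨zz, Z, ⟨hZc.three, hZc.inj, ?_⟩, ?_, hZd⟩
      · intro i
        obtain ⟨⟨c, hc⟩, -⟩ := (s1.jump (Z i) (Z (i + 1))).2 ⟨i, rfl, rfl⟩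
        exact ⟨c, hOF' hc⟩
      · have s2 := side_congr hP hP' hOF' s1
        have s3 := side_compl hP' s2
        rw [hK'eq] at s3
        exact s3
    · intro i j h
      exact hA.chC i j (adj' _ _ h)
    · rw [hcompl]
      intro u w hu hu2 hw hw2 h
      have huK := vK u hu
      have hwK := vK w hw
      obtain ⟨-, huD, -⟩ := f3 u huK hu2
      obtain ⟨-, hwD, -⟩ := f3 w hwK hw2
      obtain ⟨c', hc'⟩ := h
      have mkK : ∀ u w c, u ∉ verts D → (u, w, c) ∈ K' → (u, w, c) ∈ K' \ D := by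
        intro u w c hu h
        exact Finset.mem_sdiff.2 ⟨h, fun h => hu (mem_verts.2 ⟨_, _, h⟩)⟩
      rcases Finset.mem_union.1 hc' with h | h
      · rw [Finset.mem_sdiff] at h
        by_cases hk : (u, w, c') ∈ K
        · exact ⟨c', Or.inl (mkK _ _ _ huD
            (Finset.mem_union_left _ (Finset.mem_sdiff.2 ⟨hk, h.2⟩)))⟩
        · obtain ⟨e, he⟩ := hA.chK u w huK hu2 hwK hw2 ⟨c', h.1⟩
          have he' : (w, u, e) ∈ K \ D := by
            rcases he with he | he
            · have := hP.uniq _ _ _ _ h.1 (hKF (Finset.mem_sdiff.1 he).1)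
              subst this
              exact absurd (Finset.mem_sdiff.1 he).1 hk
            · exact he
          rw [Finset.mem_sdiff] at he'
          by_cases heS : (w, u, e) ∈ S
          · have hj : Jump F S w u := ⟨⟨e, heS⟩, c', h.1, h.2⟩
            rw [hS.jump] at hj
            rcases hj with ⟨h1, h2⟩ | ⟨h1, h2⟩ | ⟨h1, h2⟩
            · exact ⟨z, Or.inr (mkK _ _ _ hwD (Finset.mem_union_right _ (by rw [h1, h2]; exact rxy)))⟩
            · exact ⟨x, Or.inr (mkK _ _ _ hwD (Finset.mem_union_right _ (by rw [h1, h2]; exact ryz)))⟩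
            · exact ⟨y, Or.inr (mkK _ _ _ hwD (Finset.mem_union_right _ (by rw [h1, h2]; exact rzx)))⟩
          · exact ⟨e, Or.inr (mkK _ _ _ hwD
              (Finset.mem_union_left _ (Finset.mem_sdiff.2 ⟨he'.1, heS⟩)))⟩
      · exact ⟨c', Or.inl (mkK _ _ _ huD (Finset.mem_union_right _ h))⟩
  · intro u hu hux huy huz
    have hall := hinner u hu hux huy huz
    refine ⟨verts_mono hSK hu, ?_, ?_⟩
    · intro h
      obtain ⟨p, q, hpq⟩ := mem_verts.1 h
      exact hSD _ (hall p q (hDF hpq)) hpq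
    · intro h
      obtain ⟨p, q, hpq⟩ := mem_verts.1 h
      rw [Finset.mem_sdiff] at hpq
      exact hpq.2 (hSK (hall p q hpq.1))
  · intro u hu
    refine ⟨vK u hu.1, hu.2.1, ?_⟩
    have := hu.2.2
    rwa [hcompl] at this

end Pool.Agent.H3.RCR
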